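import Pool.Agent.H96.PZ.Stmts2

/-!
# Planks: change of the order of the coordinates
-/

set_option autoImplicit false

namespace Pool.PZ

open Finset Real
open Pool.Agent.H49.Ent Pool.Agent.H32.Dense Pool.STK Pool.KA Pool.KSAT Pool.K2S Pool.PB Pool.KS6
open Pool.ZCL Pool.S6C

/-- The plank `y` in the opposite order of the two coordinates. -/
noncomputable def swp (y : Pln) : Pln where
  e := -(y.c + y.s * y.e)
  c := y.c / y.s
  s := 1 / y.s
  xb := y.xb
  db := y.db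

/-- A plank in the opposite order of the coordinates, if `y.s` is bounded from below. -/
theorem incP_swp {i0 iu iN : Fin 3} {w lam P : ℕ} (hP : w + lam ≤ P) {y : Pln} {t : ℝ}
    {x d : Fin 3 → ℝ} (h : Inc i0 iN iu w lam P 2 y t x d) (hs : 1 / 5 ≤ |y.s|) :
    IncP i0 iu iN w (w + lam) P 20 20 (swp y) t x := by
  have hs0 : 0 < |y.s| := by linarith
  have hs1 : y.s ≠ 0 := abs_pos.1 hs0
  have hinv : |1 / y.s| ≤ 5 := by
    rw [abs_div, abs_one, div_le_iff₀ hs0]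
    linarith
  obtain ⟨b, hb⟩ : ∃ b : Fin 3 → ℝ, b = fun i => y.xb i + t * y.db i := ⟨_, rfl⟩
  have pu := h.pu
  have pn := h.pn
  rw [← hb] at pu pn
  have k1 : (1 : ℝ) / 2 ^ P ≤ 1 / 2 ^ (w + lam) := inv_mono hP
  have k0 : (0 : ℝ) < 1 / 2 ^ P := by positivity
  have e0 : |y.s * y.e| ≤ 8 := by
    rw [abs_mul]
    calc _ ≤ 4 * 2 := mul_le_mul h.s_le h.e_le (abs_nonneg _) (by norm_num)
      _ = 8 := by norm_num
  refine ⟨?_, ?_, ?_, ?_, ?_, ?_⟩
  · show |-(y.c + y.s * y.e)| ≤ 20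
    rw [abs_neg]
    have := abs_add_le y.c (y.s * y.e)
    have := h.c_le
    linarith
  · show |y.c / y.s| ≤ 20
    have e : y.c / y.s = y.c * (1 / y.s) := by ring
    rw [e, abs_mul]
    calc _ ≤ 4 * 5 := mul_le_mul h.c_le hinv (abs_nonneg _) (by norm_num)
      _ = 20 := by norm_num
  · show |1 / y.s| ≤ 20
    linarith
  · show |x i0 - (y.xb i0 + t * y.db i0)| ≤ 20 / 2 ^ w
    exact h.pe.trans (div_le_div_of_nonneg_right (by norm_num) (by positivity))
  · show |fu i0 iu (-(y.c + y.s * y.e)) x - fu i0 iu (-(y.c + y.s * y.e))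
      (fun i => y.xb i + t * y.db i)| ≤ 20 / 2 ^ (w + lam)
    rw [← hb]
    have e : fu i0 iu (-(y.c + y.s * y.e)) x - fu i0 iu (-(y.c + y.s * y.e)) b =
        (fn i0 iN iu y.c y.s x - fn i0 iN iu y.c y.s b) -
          y.s * (fu i0 iN y.e x - fu i0 iN y.e b) := by
      unfold fu fn
      ring
    rw [e]
    refine (abs_sub _ _).trans ?_
    have e1 : |y.s * (fu i0 iN y.e x - fu i0 iN y.e b)| ≤ 4 * (2 / 2 ^ (w + lam)) := by
      rw [abs_mul]
      exact mul_le_mul h.s_le pu (abs_nonneg _) (by norm_num)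
    have e2 : (20 : ℝ) / 2 ^ (w + lam) = 20 * (1 / 2 ^ (w + lam)) := by ring
    have e3 : (2 : ℝ) / 2 ^ (w + lam) = 2 * (1 / 2 ^ (w + lam)) := by ring
    have e4 : (2 : ℝ) / 2 ^ P = 2 * (1 / 2 ^ P) := by ring
    rw [e3] at e1
    rw [e4] at pn
    rw [e2]
    linarith
  · show |fn i0 iu iN (y.c / y.s) (1 / y.s) x - fn i0 iu iN (y.c / y.s) (1 / y.s)
      (fun i => y.xb i + t * y.db i)| ≤ 20 / 2 ^ P
    rw [← hb]
    have e : fn i0 iu iN (y.c / y.s) (1 / y.s) x - fn i0 iu iN (y.c / y.s) (1 / y.s) b =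
        1 / y.s * (fn i0 iN iu y.c y.s x - fn i0 iN iu y.c y.s b) := by
      unfold fn
      field_simp
      ring
    rw [e, abs_mul]
    have e2 : (20 : ℝ) / 2 ^ P = 20 * (1 / 2 ^ P) := by ring
    have e4 : (2 : ℝ) / 2 ^ P = 2 * (1 / 2 ^ P) := by ring
    rw [e4] at pn
    rw [e2]
    have := mul_le_mul hinv pn (abs_nonneg _) (by norm_num : (0 : ℝ) ≤ 5)
    linarith

end Pool.PZ
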